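import Pool.Agent.Q88.MF.Stm
import Pool.Agent.Q184.MF_RAT
import Pool.Agent.Q86.MF_LIP
import Pool.Agent.Q109.MF_KMO
import Pool.Agent.Q176.MF_KRA
import Pool.Agent.Q13.MF_KEY
import Pool.Agent.Q181.MF_HLR
import Pool.Agent.Q208.MF_HLS
import Pool.Agent.Q103.MF_INC
import Pool.Agent.Q90.MF_BIJ
import Pool.Agent.Q214.MF.LevMod
import Pool.Agent.Q186.MF.Box
import Pool.Agent.Q213.MF.ITA
import Pool.Agent.Q153.MF_MEA
import Pool.Agent.Q214.MF.Int
import Pool.Agent.Q53.MF.Coo
import Pool.Agent.Q153.MF_AXI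
import Pool.Agent.Q53.MF.Lff
import Pool.Agent.Q222.MF_HOM
import Pool.Agent.Q222.MF_DEA
import Pool.Agent.Q163.MF_DEB
import Pool.Agent.Q213.MF.WDE
import Pool.Agent.Q110.MF_NUL
import Pool.Agent.Q230.MF_CLS
import Pool.Agent.Q110.MF_FIN

/-!
# The modulus of continuity of the inverse of a homeomorphism with distortion in `L^(n-1)`

Let `n ≥ 2` and `1 < a < n`. The map `f (x₀, x') = (x₀ * max (k |x₀|) (κ |x'|), x')`, with
`k t = exp (1 - t^(-a)) / t` and `κ r = r (1 - log r)^(1/a)` on `(0, 1)` (and both `1` on `[1, ∞)`), `|x'|` the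
maximum norm, is a Lipschitz homeomorphism of `ℝ^n` onto itself. It is a map of finite distortion with
`K_f ∈ L^(n-1)_loc`, since its Jacobian is at least `P = max (k |x₀|) (κ |x'|)` and
`|{P ≤ exp (-j)}| ≤ C exp (-(n-1) j) (1+j)^(-n/a)`. On the axis `f (s, 0) = (exp (1 - s^(-a)), 0)`, so the
logarithmic modulus of continuity of the inverse at `0` has at most the exponent `1/a`. Letting `a → n` we get
that no exponent larger than `1/n` is admissible.
-/

set_option autoImplicit false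

open Set MeasureTheory Filter Topology
open scoped ContDiff ENNReal NNReal

noncomputable section

namespace Pool.Agent.Results.MP_d8ee74_an.InverseModulus

/-- Euclidean space `ℝ^n`. -/
abbrev E (n : ℕ) := EuclideanSpace ℝ (Fin n)

/-- `f ∈ W^{1,1}_loc(Ω, ℝ^n)` with weak derivative `D`: both are locally integrable on `Ω` and
`∫ φ(x) D(x)v dx = - ∫ (∂_v φ)(x) f(x) dx` for all smooth `φ` with compact support in `Ω` and all `v`. -/
def IsWeakDeriv {n : ℕ} (Ω : Set (E n)) (f : E n → E n) (D : E n → (E n →L[ℝ] E n)) : Prop :=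
  LocallyIntegrableOn f Ω ∧ LocallyIntegrableOn D Ω ∧
    ∀ φ : E n → ℝ, ContDiff ℝ ∞ φ → HasCompactSupport φ → tsupport φ ⊆ Ω → ∀ v : E n,
      ∫ x, φ x • D x v = - ∫ x, (fderiv ℝ φ x v) • f x

/-- The distortion function `K_f = |Df|^n / J_f` where `J_f > 0`, and `1` otherwise, as a function of the
derivative `D`; `|Df|` is the operator norm. -/
def Kf {n : ℕ} (D : E n → (E n →L[ℝ] E n)) (x : E n) : ℝ :=
  if 0 < (D x).det then ‖D x‖ ^ n / (D x).det else 1

/-- The class `F_n`: homeomorphisms `e` from an open set `Ω` (`e.source`) of `ℝ^n` onto the open set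
`f(Ω)` (`e.target`) which are of finite distortion (`f ∈ W^{1,1}_loc`, `J_f ∈ L^1_loc`,
`|Df|^n ≤ K J_f` almost everywhere for a measurable `K ≥ 1`) with `K_f ∈ L^(n-1)_loc(Ω)`. -/
def FD {n : ℕ} (e : OpenPartialHomeomorph (E n) (E n)) : Prop :=
  ∃ D : E n → (E n →L[ℝ] E n), IsWeakDeriv e.source e D ∧
    LocallyIntegrableOn (fun x => (D x).det) e.source ∧
    (∃ K : E n → ℝ, Measurable K ∧ (∀ x, 1 ≤ K x) ∧
      ∀ᵐ x ∂(volume.restrict e.source), ‖D x‖ ^ n ≤ K x * (D x).det) ∧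
    LocallyIntegrableOn (fun x => Kf D x ^ (n - 1)) e.source

/-- The exponent `β` is admissible: for every `f` in the class and every ball `B(z, R)` compactly contained
in `f(Ω)` there is `C` with `|f⁻¹(x) - f⁻¹(z)| ≤ C log^(-β) (R / |x - z|)` for all `x ≠ z` in the ball. -/
def Admissible (n : ℕ) (β : ℝ) : Prop :=
  0 < β ∧ ∀ e : OpenPartialHomeomorph (E n) (E n), FD e → ∀ (z : E n) (R : ℝ), 0 < R →
    Metric.closedBall z R ⊆ e.target → ∃ C : ℝ, ∀ x ∈ Metric.ball z R, x ≠ z →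
      ‖e.symm x - e.symm z‖ ≤ C * Real.log (R / ‖x - z‖) ^ (-β)

open Pool.Agent.Q88 in
theorem main : MF.S_fin := by
  have rat := Pool.Agent.Q184.MF.rat
  have lip := Pool.Agent.Q86.MF_LIP.lip rat
  have kmo := Pool.Agent.Q109.MF.kmo
  have kra := Q176.MF.kra
  have key := Pool.Agent.Q13.MF.key
  have hlr := Pool.Agent.Q181.MF.hlr rat kmo kra key
  have hls := Pool.Agent.Q208.MF.hls lip kmo
  have inc := Pool.Agent.Q103.MF.inc rat kmo
  have bij := Pool.Agent.Q90.MFBij.bij rat kmo hls inc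
  have lev := Pool.Agent.Q214.MF.lev
  have mod := Pool.Agent.Q214.MF.mod rat
  have box := Pool.Agent.Q88.MF.box
  have ita := Pool.Agent.Q213.MF.ita lev box kmo rat
  have mea := Pool.Agent.Q153.MF.mea kmo
  have int := Pool.Agent.Q214.MF.int ita mea
  have coo := Pool.Agent.Q53.MF.coo
  have axi := Pool.Agent.Q153.MF.axi kmo
  have lff := Pool.Agent.Q53.MF.lff hlr hls
  have hom := Pool.Agent.Q88.MF.hom coo bij lff
  have dea := Pool.Agent.Q88.MF.dea
  have deb := Pool.Agent.Q163.MFDEB.deb dea coo inc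
  have wde := Pool.Agent.Q213.MF.wde
  have nul := Pool.Agent.Q110.MF.nul
  have cls := Pool.Agent.Q88.MF.cls lff deb wde nul int mea
  exact Pool.Agent.Q110.MF.fin hom cls axi mod

/-- **Theorem.** For `n ≥ 2` every admissible exponent is at most `1/n`; so
`α*(n) = sup {β | β admissible} ≤ 1/n`. -/
theorem result (n : ℕ) (hn : 2 ≤ n) :
    (∀ β : ℝ, Admissible n β → β ≤ 1 / (n : ℝ)) ∧
      sSup {β : ℝ | Admissible n β} ≤ 1 / (n : ℝ) := by
  have key : ∀ β : ℝ, Admissible n β → β ≤ 1 / (n : ℝ) := by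
    obtain ⟨d, rfl⟩ : ∃ d, n = d + 1 := ⟨n - 1, by omega⟩
    intro β hβ
    have h := main d β (by omega) hβ
    push_cast
    exact h
  refine ⟨key, ?_⟩
  exact Real.sSup_le (fun β hβ => key β hβ) (by positivity)

end Pool.Agent.Results.MP_d8ee74_an.InverseModulus
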